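import Pool.Agent.R689.JP5

/-!
# MP_c865e8_ag, Q1

Every ordered partition of every `t ≥ 1` is realised by a reduced plane curve.
-/

set_option autoImplicit false

namespace Pool.Agent.Results.MP_c865e8_ag.AllPartitionsRealised

open MvPolynomial

/-- The graded ring `S = ℂ[x,y,z]`, with `x = X 0`, `y = X 1`, `z = X 2`. -/
abbrev S := MvPolynomial (Fin 3) ℂ

/-- The map `S³ → S`, `(v₀, v₁, v₂) ↦ v₀ f_x + v₁ f_y + v₂ f_z`. Its image is the Jacobian ideal
`J_f`, its cokernel the Milnor algebra `M(f)`, its kernel the module of Jacobian syzygies. -/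
noncomputable abbrev jacobianMap (f : S) : (Fin 3 → S) →ₗ[S] S :=
  Fintype.linearCombination S fun i => pderiv i f

/-- The maps given by the rows `r` and `ρ` form, together with the Jacobian map of `f`, a minimal
graded free resolution
`0 → ⊕_{j < s} S(-c_j) → ⊕_{i < s+2} S(1-d-δ_i) → S³(1-d) → S`
of the Milnor algebra `M(f)`, where `f` is homogeneous of degree `d`. The `i`-th basis vector of
the second module goes to `r i ∈ S³`, the `j`-th basis vector of the first one to
`ρ j ∈ S^{s+2}`. -/
structure IsMinimalResolution (f : S) (d s : ℕ) (δ : Fin (s + 2) → ℕ) (c : Fin s → ℕ)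
    (r : Fin (s + 2) → Fin 3 → S) (ρ : Fin s → Fin (s + 2) → S) : Prop where
  /-- exactness at `S³(1-d)` -/
  exact_jac : Function.Exact (Fintype.linearCombination S r) (jacobianMap f)
  /-- exactness at `⊕ S(1-d-δ_i)` -/
  exact_syz : Function.Exact (Fintype.linearCombination S ρ) (Fintype.linearCombination S r)
  /-- exactness at `⊕ S(-c_j)` -/
  injective_rel : Function.Injective (Fintype.linearCombination S ρ)
  /-- `S(1-d-δ_i) → S³(1-d)` has degree zero: the entries of `r i` are forms of degree `δ_i` -/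
  graded_syz : ∀ i k, (r i k).IsHomogeneous (δ i)
  /-- `S(-c_j) → S(1-d-δ_i)` has degree zero: the entry is zero or a form of degree
  `c_j - (d-1+δ_i) ≥ 0` -/
  graded_rel : ∀ j i, ρ j i = 0 ∨ ∃ n, c j = (d - 1 + δ i) + n ∧ (ρ j i).IsHomogeneous n
  /-- minimality: all entries lie in the maximal ideal `(x,y,z)` -/
  minimal_syz : ∀ i k, constantCoeff (r i k) = 0
  /-- minimality: all entries lie in the maximal ideal `(x,y,z)` -/
  minimal_rel : ∀ j i, constantCoeff (ρ j i) = 0

/-- The curve `C : f = 0` is a reduced plane curve of degree `d`, is not free (its Milnor algebra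
has a minimal resolution of length three, `1 ≤ π.length`), and has class `tT_π`: with
`s = π.length` and blocks `π = (ε_1, ..., ε_s)`, the minimal resolution has exponents
`δ_1 ≤ ... ≤ δ_{s+2}` and shifts `c_1 ≤ ... ≤ c_s` with `c_j = d + δ_{j+2} - 1 + ε_j`, and the type
`δ_1 + δ_2 + 1 - d` is `t`. (Here indices start from zero, so that `δ_{j+2}` is
`δ j.succ.succ`.) -/
def HasClass (f : S) (d : ℕ) {t : ℕ} (π : Composition t) : Prop :=
  f.IsHomogeneous d ∧ Squarefree f ∧ 1 ≤ π.length ∧
    ∃ (δ : Fin (π.length + 2) → ℕ) (c : Fin π.length → ℕ)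
      (r : Fin (π.length + 2) → Fin 3 → S) (ρ : Fin π.length → Fin (π.length + 2) → S),
      Monotone δ ∧ Monotone c ∧ IsMinimalResolution f d π.length δ c r ρ ∧
      (∀ j : Fin π.length, (c j : ℤ) = d + δ j.succ.succ - 1 + π.blocksFun j) ∧
      (δ 0 : ℤ) + δ 1 + 1 - d = t

/-- **MP_c865e8_ag, Q1 (affirmative).** For every `t ≥ 1` and every ordered partition `π` of `t`
there is a reduced plane curve of some degree `d ≥ 3` of class `tT_π`. -/
theorem result (t : ℕ) (ht : 1 ≤ t) (π : Composition t) :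
    ∃ (d : ℕ) (f : S), 3 ≤ d ∧ HasClass f d π := by
  have hs : 1 ≤ π.length := by
    rw [Nat.one_le_iff_ne_zero]
    intro h
    have h1 := π.sum_blocksFun
    have h2 : ∑ i : Fin π.length, π.blocksFun i = 0 := by
      apply Finset.sum_eq_zero
      intro i _
      have := i.2
      omega
    omega
  obtain ⟨d, f, δ, c, r, ρ, hd, hhom, hsq, hδ, hc, e1, e2, e3, g1, g2, g3, hcj, ht'⟩ :=
    Pool.Agent.R689.JP.main π.length hs
      (fun j => if h : j < π.length then π.blocksFun ⟨j, h⟩ else 0)
      (fun j hj => by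
        simp only [dif_pos hj]
        exact π.one_le_blocksFun _)
  have hsum : ∑ j ∈ Finset.range π.length,
      (if h : j < π.length then π.blocksFun ⟨j, h⟩ else 0) = t := by
    rw [← Fin.sum_univ_eq_sum_range
      (fun j => if h : j < π.length then π.blocksFun ⟨j, h⟩ else 0)]
    refine Eq.trans ?_ π.sum_blocksFun
    apply Finset.sum_congr rfl
    intro j _
    simp only [dif_pos j.2]
  refine ⟨d, f, hd, hhom, hsq, hs, δ, c, r, ρ, hδ, hc, ⟨e1, e2, e3, g1, ?_, ?_, ?_⟩, ?_, ?_⟩
  · intro j i
    rcases g2 j i with h | ⟨n, -, h1, h2⟩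
    · exact Or.inl h
    · exact Or.inr ⟨n, h1, h2⟩
  · intro i k
    exact Pool.Agent.R689.JP.constantCoeff_of_hom (g1 i k) (g3 i)
  · intro j i
    rcases g2 j i with h | ⟨n, hn, h1, h2⟩
    · rw [h, map_zero]
    · exact Pool.Agent.R689.JP.constantCoeff_of_hom h2 hn
  · intro j
    have h := hcj j
    simp only [dif_pos j.2] at h
    have h' : (c j : ℤ) + 1 = d + δ j.succ.succ + π.blocksFun j := by exact_mod_cast h
    linarith
  · rw [hsum] at ht'
    have h' : (δ 0 : ℤ) + δ 1 + 1 = d + t := by exact_mod_cast ht'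
    linarith

end Pool.Agent.Results.MP_c865e8_ag.AllPartitionsRealised
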