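import Pool.Agent.H445.A5

/-!
Every ordered partition is realised by the Jacobian syzygy data of a reduced plane curve.

The curves are `f = ∏_{c ∈ V} (u - c z^(n+1))` where
`u = x^(n+1) - (n+1) x z^n + lam (y^(n+1) - (n+1) y z^n)` and `V` is the set of critical values of
`u` (on the chart `z = 1`) at the critical points lying outside a staircase shaped subset of the
`n` by `n` grid of critical points.  The syzygies of the gradient of `f` with vanishing third
entry form a free module of rank one, and the ideal of the third entries is, up to a fixed factor,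
the ideal of the staircase shaped set, whose Hilbert-Burch resolution is explicit.
-/

open MvPolynomial

namespace Pool.Agent.Results.MP_c865e8_ag.OrderedPartitions

/-- `HasMilnorResolution f d s e c`: with `S = ℂ[x, y, z]`, `m = s + 2`, and `f` a form of degree
`d`, the Milnor algebra `S / (f_x, f_y, f_z)` has a minimal graded free resolution
`0 → ⊕_{k < s} S(-c k) → ⊕_{j < s + 2} S(1 - d - e j) → S(1 - d)^3 → S`.
The matrix `A` is the map `⊕ S(1 - d - e j) → S(1 - d)^3` and `B` is the map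
`⊕ S(-c k) → ⊕ S(1 - d - e j)`; the first two conditions say that these maps are graded of
degree zero, the next three that no entry of the three matrices has a constant term (minimality),
and the last three are exactness at `S(1 - d)^3`, at `⊕ S(1 - d - e j)` and injectivity of `B`. -/
def HasMilnorResolution (f : MvPolynomial (Fin 3) ℂ) (d s : ℕ)
    (e : Fin (s + 2) → ℕ) (c : Fin s → ℕ) : Prop :=
  ∃ (A : Matrix (Fin 3) (Fin (s + 2)) (MvPolynomial (Fin 3) ℂ))
    (B : Matrix (Fin (s + 2)) (Fin s) (MvPolynomial (Fin 3) ℂ)),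
    (∀ i j, (A i j).IsHomogeneous (e j)) ∧
    (∀ j k, B j k = 0 ∨ ∃ r : ℕ, d - 1 + e j + r = c k ∧ (B j k).IsHomogeneous r) ∧
    (∀ i, constantCoeff (pderiv i f) = 0) ∧
    (∀ i j, constantCoeff (A i j) = 0) ∧
    (∀ j k, constantCoeff (B j k) = 0) ∧
    (∀ v : Fin 3 → MvPolynomial (Fin 3) ℂ,
      (∑ i, v i * pderiv i f = 0) ↔ ∃ w : Fin (s + 2) → MvPolynomial (Fin 3) ℂ, v = A.mulVec w) ∧
    (∀ w : Fin (s + 2) → MvPolynomial (Fin 3) ℂ,
      A.mulVec w = 0 ↔ ∃ u : Fin s → MvPolynomial (Fin 3) ℂ, w = B.mulVec u) ∧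
    (∀ u : Fin s → MvPolynomial (Fin 3) ℂ, B.mulVec u = 0 → u = 0)

/-- `HasClass f d t s ε`: the curve `f = 0` is a reduced plane curve of degree `d ≥ 3` (that is,
`f` is homogeneous of degree `d` and squarefree) whose Milnor algebra has a minimal graded free
resolution with `m = s + 2` exponents `e 0 ≤ e 1 ≤ ...` and shifts `c 0 ≤ c 1 ≤ ...`, whose type
`e 0 + e 1 + 1 - d` equals `t`, and with `c j = d + e (j + 2) - 1 + ε j` for all `j < s`.
For `s ≥ 1` (so `m ≥ 3`) this says that the curve has class `tT_π` for `π = (ε 0, ..., ε (s-1))`. -/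
def HasClass (f : MvPolynomial (Fin 3) ℂ) (d t s : ℕ) (ε : Fin s → ℕ) : Prop :=
  3 ≤ d ∧ f.IsHomogeneous d ∧ Squarefree f ∧
  ∃ (e : Fin (s + 2) → ℕ) (c : Fin s → ℕ), Monotone e ∧ Monotone c ∧
    HasMilnorResolution f d s e c ∧
    e 0 + e 1 + 1 = d + t ∧
    ∀ j : Fin s, c j + 1 = d + e j.succ.succ + ε j

/-- For every `t ≥ 1` and every ordered partition `ε = (ε 0, ..., ε (s-1))` of `t` there is a
reduced plane curve of class `tT_ε`. -/
theorem result : ∀ t : ℕ, 1 ≤ t → ∀ (s : ℕ) (ε : Fin s → ℕ), (∀ j, 0 < ε j) → ∑ j, ε j = t →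
    ∃ (d : ℕ) (f : MvPolynomial (Fin 3) ℂ), HasClass f d t s ε := by
  intro t ht s ε hpos hsum
  obtain ⟨d, f, h1, h2, h3, e, c, h4, h5, h6, h7, h8⟩ := H445.main t ht s ε hpos hsum
  exact ⟨d, f, h1, h2, h3, e, c, h4, h5, h6, h7, h8⟩

end Pool.Agent.Results.MP_c865e8_ag.OrderedPartitions
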